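import Mathlib.Analysis.SpecialFunctions.ImproperIntegrals
import Mathlib.Analysis.SpecialFunctions.Complex.LogDeriv
import Mathlib.Tactic

/-!
# MP_2cf66e_nt, positive integrands: the complex Cauchy kernel (helper64)
-/

set_option autoImplicit false

noncomputable section

open MeasureTheory Filter Topology

namespace Pool.Agent.P64

/-- The Cauchy kernel at a complex point. -/
def ck (t : ℝ) (κ : ℂ) (w : ℝ) : ℂ := (t : ℂ) / (((w : ℂ) - κ) ^ 2 + (t : ℂ) ^ 2)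

theorem ck_fac (t : ℝ) (κ : ℂ) (w : ℝ) : ((w : ℂ) - κ) ^ 2 + (t : ℂ) ^ 2 =
    ((w : ℂ) - (κ + t * Complex.I)) * ((w : ℂ) - (κ - t * Complex.I)) := by
  have h : Complex.I ^ 2 = -1 := Complex.I_sq
  ring_nf
  rw [h]
  ring

theorem ne_of_im {z : ℂ} (hz : z.im ≠ 0) (w : ℝ) : (w : ℂ) - z ≠ 0 := by
  intro h
  apply hz
  have := congrArg Complex.im h
  simpa using this

/-- Away from the real axis the distance to `w` is at least a multiple of `sqrt (1 + w ^ 2)`. -/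
theorem dist_ge {z : ℂ} {y : ℝ} (hy : 0 < y) (hz : y ≤ |z.im|) (w : ℝ) :
    1 + w ^ 2 ≤ (2 + (1 + 2 * ‖z‖ ^ 2) / y ^ 2) * ‖(w : ℂ) - z‖ ^ 2 := by
  have h1 : y ≤ ‖(w : ℂ) - z‖ := by
    refine hz.trans ?_
    have := Complex.abs_im_le_norm ((w : ℂ) - z)
    simpa using this
  have h2 : |w| ≤ ‖(w : ℂ) - z‖ + ‖z‖ := by
    have h3 : (w : ℂ) = ((w : ℂ) - z) + z := by ring
    calc |w| = ‖(w : ℂ)‖ := by rw [Complex.norm_real, Real.norm_eq_abs]
      _ = ‖((w : ℂ) - z) + z‖ := by rw [← h3]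
      _ ≤ _ := norm_add_le _ _
  have h4 : w ^ 2 ≤ 2 * ‖(w : ℂ) - z‖ ^ 2 + 2 * ‖z‖ ^ 2 := by
    have h5 : w ^ 2 ≤ (‖(w : ℂ) - z‖ + ‖z‖) ^ 2 := by
      rw [← sq_abs w]
      exact pow_le_pow_left₀ (abs_nonneg w) h2 2
    nlinarith [sq_nonneg (‖(w : ℂ) - z‖ - ‖z‖)]
  have h6 : 1 + 2 * ‖z‖ ^ 2 ≤ (1 + 2 * ‖z‖ ^ 2) / y ^ 2 * ‖(w : ℂ) - z‖ ^ 2 := by
    rw [div_mul_eq_mul_div, le_div_iff₀ (by positivity)]
    have h7 : y ^ 2 ≤ ‖(w : ℂ) - z‖ ^ 2 := pow_le_pow_left₀ hy.le h1 2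
    exact mul_le_mul_of_nonneg_left h7 (by positivity)
  nlinarith

theorem ck_cont {t : ℝ} {κ : ℂ} (h : ∀ w : ℝ, ((w : ℂ) - κ) ^ 2 + (t : ℂ) ^ 2 ≠ 0) :
    Continuous (ck t κ) := by
  unfold ck
  exact continuous_const.div (by fun_prop) h

/-- The size of the kernel. -/
theorem ck_le {t : ℝ} (ht : 0 ≤ t) {κ : ℂ} {y : ℝ} (hy : 0 < y)
    (h1 : y ≤ |(κ + t * Complex.I).im|) (h2 : y ≤ |(κ - t * Complex.I).im|) (w : ℝ) :
    ‖ck t κ w‖ ≤ t * (2 + (1 + 2 * (‖κ‖ + t) ^ 2) / y ^ 2) / (1 + w ^ 2) := by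
  have n1 : ‖κ + t * Complex.I‖ ≤ ‖κ‖ + t := by
    refine (norm_add_le _ _).trans ?_
    rw [norm_mul, Complex.norm_I, Complex.norm_real, Real.norm_eq_abs, abs_of_nonneg ht, mul_one]
  have n2 : ‖κ - t * Complex.I‖ ≤ ‖κ‖ + t := by
    refine (norm_sub_le _ _).trans ?_
    rw [norm_mul, Complex.norm_I, Complex.norm_real, Real.norm_eq_abs, abs_of_nonneg ht, mul_one]
  set K : ℝ := 2 + (1 + 2 * (‖κ‖ + t) ^ 2) / y ^ 2 with hK
  have hKpos : 0 < K := by positivity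
  have b1 : 1 + w ^ 2 ≤ K * ‖(w : ℂ) - (κ + t * Complex.I)‖ ^ 2 := by
    refine (dist_ge hy h1 w).trans (mul_le_mul_of_nonneg_right ?_ (by positivity))
    rw [hK]
    gcongr
  have b2 : 1 + w ^ 2 ≤ K * ‖(w : ℂ) - (κ - t * Complex.I)‖ ^ 2 := by
    refine (dist_ge hy h2 w).trans (mul_le_mul_of_nonneg_right ?_ (by positivity))
    rw [hK]
    gcongr
  have p1 : 0 < ‖(w : ℂ) - (κ + t * Complex.I)‖ := by
    rw [norm_pos_iff]
    exact ne_of_im (abs_pos.mp (hy.trans_le h1)) w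
  have p2 : 0 < ‖(w : ℂ) - (κ - t * Complex.I)‖ := by
    rw [norm_pos_iff]
    exact ne_of_im (abs_pos.mp (hy.trans_le h2)) w
  unfold ck
  rw [ck_fac, norm_div, norm_mul, Complex.norm_real, Real.norm_eq_abs, abs_of_nonneg ht,
    div_le_div_iff₀ (mul_pos p1 p2) (by positivity), mul_assoc]
  refine mul_le_mul_of_nonneg_left ?_ ht
  -- 1 + w ^ 2 ≤ K * (a * b)
  have h3 : (1 + w ^ 2) ^ 2 ≤ (K * (‖(w : ℂ) - (κ + t * Complex.I)‖ *
      ‖(w : ℂ) - (κ - t * Complex.I)‖)) ^ 2 := by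
    calc (1 + w ^ 2) ^ 2 = (1 + w ^ 2) * (1 + w ^ 2) := by ring
      _ ≤ (K * ‖(w : ℂ) - (κ + t * Complex.I)‖ ^ 2) *
          (K * ‖(w : ℂ) - (κ - t * Complex.I)‖ ^ 2) :=
        mul_le_mul b1 b2 (by positivity) (by positivity)
      _ = _ := by ring
  exact (pow_le_pow_iff_left₀ (by positivity) (by positivity) two_ne_zero).mp h3

theorem ck_int {t : ℝ} (ht : 0 ≤ t) {κ : ℂ} {y : ℝ} (hy : 0 < y)
    (h1 : y ≤ |(κ + t * Complex.I).im|) (h2 : y ≤ |(κ - t * Complex.I).im|) :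
    Integrable (ck t κ) := by
  have hne : ∀ w : ℝ, ((w : ℂ) - κ) ^ 2 + (t : ℂ) ^ 2 ≠ 0 := by
    intro w
    rw [ck_fac]
    exact mul_ne_zero (ne_of_im (abs_pos.mp (hy.trans_le h1)) w)
      (ne_of_im (abs_pos.mp (hy.trans_le h2)) w)
  refine Integrable.mono' (g := fun w : ℝ =>
    t * (2 + (1 + 2 * (‖κ‖ + t) ^ 2) / y ^ 2) * (1 + w ^ 2)⁻¹) ?_
    (ck_cont hne).aestronglyMeasurable (ae_of_all _ fun w => ?_)
  · exact integrable_inv_one_add_sq.const_mul _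
  · have := ck_le ht hy h1 h2 w
    rwa [div_eq_mul_inv] at this

/-- The kernel has integral `0` when its centre is far from the real axis. -/
theorem ck_zero {t : ℝ} (ht : 0 < t) {κ : ℂ} (h : t < |κ.im|) : ∫ w : ℝ, ck t κ w = 0 := by
  set z1 : ℂ := κ + t * Complex.I with hz1
  set z2 : ℂ := κ - t * Complex.I with hz2
  have i1 : z1.im = κ.im + t := by simp [hz1]
  have i2 : z2.im = κ.im - t := by simp [hz2]
  -- the same sign
  have hs : 0 < z1.im * z2.im := by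
    rw [i1, i2]
    have h3 : t ^ 2 < κ.im ^ 2 := by
      rw [← sq_abs κ.im]
      exact pow_lt_pow_left₀ h ht.le two_ne_zero
    nlinarith
  have hz1' : z1.im ≠ 0 := fun h0 => by rw [h0, zero_mul] at hs; exact lt_irrefl _ hs
  have hz2' : z2.im ≠ 0 := fun h0 => by rw [h0, mul_zero] at hs; exact lt_irrefl _ hs
  have hslit : ∀ w : ℝ, ((w : ℂ) - z1) / ((w : ℂ) - z2) ∈ Complex.slitPlane := by
    intro w
    rw [Complex.mem_slitPlane_iff]
    by_contra hcon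
    push Not at hcon
    obtain ⟨hre, him⟩ := hcon
    set c : ℂ := ((w : ℂ) - z1) / ((w : ℂ) - z2) with hc
    have e1 : (w : ℂ) - z1 = c * ((w : ℂ) - z2) := by
      rw [hc, div_mul_cancel₀ _ (ne_of_im hz2' w)]
    have e2 : -z1.im = c.re * (-z2.im) := by
      have := congrArg Complex.im e1
      simpa [Complex.mul_im, him] using this
    nlinarith [mul_nonneg (neg_nonneg.mpr hre) (sq_nonneg z2.im)]
  have hd : ∀ w : ℝ, HasDerivAt (fun w : ℝ => (1 / (2 * Complex.I)) *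
      Complex.log (((w : ℂ) - z1) / ((w : ℂ) - z2))) (ck t κ w) w := by
    intro w
    have d1 : HasDerivAt (fun w : ℝ => (w : ℂ) - z1) 1 w := Complex.ofRealCLM.hasDerivAt.sub_const z1
    have d2 : HasDerivAt (fun w : ℝ => (w : ℂ) - z2) 1 w := Complex.ofRealCLM.hasDerivAt.sub_const z2
    have d3 := (d1.div d2 (ne_of_im hz2' w)).clog_real (hslit w)
    have d4 := d3.const_mul (1 / (2 * Complex.I))
    refine d4.congr_deriv ?_
    have a1 := ne_of_im hz1' w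
    have a2 := ne_of_im hz2' w
    have hI : Complex.I ≠ 0 := Complex.I_ne_zero
    unfold ck
    rw [ck_fac, ← hz1, ← hz2]
    have e5 : z1 - z2 = 2 * Complex.I * t := by
      rw [hz1, hz2]
      ring
    have e6 : (1 * ((w : ℂ) - z2) - ((w : ℂ) - z1) * 1) = 2 * Complex.I * t := by
      rw [← e5]
      ring
    simp only [Pi.div_apply]
    rw [e6]
    field_simp
  have hlim : ∀ l : Filter ℝ, Tendsto (fun w : ℝ => |w|) l atTop →
      Tendsto (fun w : ℝ => (1 / (2 * Complex.I)) *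
        Complex.log (((w : ℂ) - z1) / ((w : ℂ) - z2))) l (𝓝 0) := by
    intro l hl
    have t1 : Tendsto (fun w : ℝ => (z2 - z1) / ((w : ℂ) - z2)) l (𝓝 0) := by
      rw [tendsto_zero_iff_norm_tendsto_zero]
      have t2 : Tendsto (fun w : ℝ => ‖(w : ℂ) - z2‖) l atTop := by
        refine tendsto_atTop_mono (fun w => ?_) (tendsto_atTop_add_const_right l (-‖z2‖) hl)
        have := norm_sub_norm_le (w : ℂ) z2
        rw [Complex.norm_real, Real.norm_eq_abs] at this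
        linarith
      simp only [norm_div]
      exact t2.const_div_atTop _
    have t3 : Tendsto (fun w : ℝ => ((w : ℂ) - z1) / ((w : ℂ) - z2)) l (𝓝 1) := by
      have e : (fun w : ℝ => ((w : ℂ) - z1) / ((w : ℂ) - z2)) =
          fun w : ℝ => 1 + (z2 - z1) / ((w : ℂ) - z2) := by
        funext w
        have a2 := ne_of_im hz2' w
        field_simp
        ring
      rw [e]
      simpa using t1.const_add 1
    have t4 := (continuousAt_clog (x := 1) (by simp)).tendsto.comp t3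
    have t5 := t4.const_mul (1 / (2 * Complex.I))
    simpa using t5
  have hi : Integrable (ck t κ) := by
    refine ck_int ht.le (y := |κ.im| - t) (by linarith) ?_ ?_
    · rw [← hz1, i1]
      have := abs_add_le (κ.im + t) (-t)
      rw [add_neg_cancel_right, abs_neg, abs_of_pos ht] at this
      linarith
    · rw [← hz2, i2]
      have := abs_add_le (κ.im - t) t
      rw [sub_add_cancel, abs_of_pos ht] at this
      linarith
  rw [integral_of_hasDerivAt_of_tendsto hd hi (hlim atBot tendsto_abs_atBot_atTop)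
    (hlim atTop tendsto_abs_atTop_atTop), sub_zero]

theorem ck_real {t : ℝ} (κ : ℝ) (w : ℝ) :
    ck t κ w = ((t / ((w - κ) ^ 2 + t ^ 2) : ℝ) : ℂ) := by
  unfold ck
  push_cast
  rfl

/-- The real kernel. -/
theorem rk_int {t : ℝ} (ht : 0 < t) (κ : ℝ) :
    Integrable (fun w : ℝ => t / ((w - κ) ^ 2 + t ^ 2)) ∧
      ∫ w : ℝ, t / ((w - κ) ^ 2 + t ^ 2) = Real.pi := by
  have e : (fun w : ℝ => t / ((w - κ) ^ 2 + t ^ 2)) =
      fun w : ℝ => (fun u : ℝ => t⁻¹ * (1 + (t⁻¹ * u) ^ 2)⁻¹) (w - κ) := by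
    funext w
    have h1 : 0 < (w - κ) ^ 2 + t ^ 2 := by positivity
    have h2 : 0 < 1 + (t⁻¹ * (w - κ)) ^ 2 := by positivity
    have h3 : 1 + (t⁻¹ * (w - κ)) ^ 2 = ((w - κ) ^ 2 + t ^ 2) / t ^ 2 := by
      field_simp
      ring
    simp only
    rw [h3, inv_div]
    field_simp
  have hi : Integrable (fun u : ℝ => t⁻¹ * (1 + (t⁻¹ * u) ^ 2)⁻¹) :=
    (integrable_inv_one_add_sq.comp_mul_left' (inv_ne_zero ht.ne')).const_mul _
  rw [e]
  constructor
  · exact hi.comp_sub_right κ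
  · rw [integral_sub_right_eq_self (fun u : ℝ => t⁻¹ * (1 + (t⁻¹ * u) ^ 2)⁻¹) κ,
      integral_const_mul, Measure.integral_comp_mul_left (fun x : ℝ => (1 + x ^ 2)⁻¹) t⁻¹,
      integral_univ_inv_one_add_sq, inv_inv, abs_of_pos ht, smul_eq_mul]
    field_simp

end Pool.Agent.P64
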